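import Pool.Agent.R216.BOU.Attr
import Pool.Agent.R216.BOU.Omega

/-! MP_771030: the weak sigma-attractor of the semi-dissipative Boussinesq system is the union of
the weak omega-limit sets of the level sets. -/

namespace Pool.Agent.Results.MP_771030_an.PancakeLevelSets

open Pool.Agent.R216.BOU Set

theorem result (L ν g : ℝ) (hL : 0 < L) (hν : 0 < ν) (hg : 0 < g) (S : ℝ → St → St)
    (hS : IsSemigroup L ν g S) :
    attractor L ν g = ⋃ r ∈ Ici (0 : ℝ), omegaLim S (Btilde L ν g r) := by
  ext x
  constructor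
  · intro hx
    obtain ⟨r, hr, h⟩ := attr_sub hL hν hg hS hx
    exact mem_iUnion₂.2 ⟨r, hr, h⟩
  · intro hx
    obtain ⟨r, hr, h⟩ := mem_iUnion₂.1 hx
    exact omega_sub hL hν hg hS h

end Pool.Agent.Results.MP_771030_an.PancakeLevelSets
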