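import Pool.Agent.R211.PK.Fin
import Pool.Agent.R211.PK.T1
import Pool.Agent.R211.PK.T2
import Pool.Agent.R211.PK.T3
import Pool.Agent.R211.PK.Abs
import Pool.Agent.R211.PK.Inst
import Pool.Agent.R211.PK.Der
import Pool.Agent.R211.PK.Gr
import Pool.Agent.R211.PK.Uni
import Pool.Agent.R211.PK.Gal
import Pool.Agent.R211.PK.Ex
import Pool.Agent.R211.PK.Cpt
import Pool.Agent.R211.PK.Shf
import Pool.Agent.R211.PK.VB
import Pool.Agent.R211.PK.Bnd
import Pool.Agent.R211.PK.Vel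
import Pool.Agent.R211.PK.Br1
import Pool.Agent.R211.PK.Br2
import Pool.Agent.R211.PK.Nrm
import Pool.Agent.R211.PK.Om1
import Pool.Agent.R211.PK.Om2
import Pool.Agent.R211.PK.Sub
import Pool.Agent.R211.PK.Sup

/-!
MP_771030_an, Q1, full answer: the weak sigma-attractor of the semi-dissipative Boussinesq system
is the union over `r ≥ 0` of the weak ω-limit sets of the temperature level sets `B̃_r`.
-/

set_option autoImplicit false

open Set Filter Topology MeasureTheory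
open scoped ComplexConjugate ENNReal
open Pool.Agent.R211.BQ Pool.Agent.R211.PK

namespace Pool.Agent.Results.MP_771030_an.PancakeStructure

/-- For all `L, ν, g > 0`, the attractor is the union of the sets `ω(B̃_r)`, `r ≥ 0`. Moreover
the solution map `Ev` is well defined on `V × L²`: for `p` in `V × L²` and `t ≥ 0` there is `q`
with `Ev L ν g t p q`, and it is unique up to equality almost everywhere. -/
theorem result (L ν g : ℝ) (hL : 0 < L) (hν : 0 < ν) (hg : 0 < g) :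
    (At L ν g = ⋃ (r : ℝ) (_ : 0 ≤ r), Om L ν g (Bt L ν g r)) ∧
    ∀ p : (Fin 2 → T2 → ℝ) × (T2 → ℝ), p.1 ∈ Hs → p.2 ∈ L20 → grad2 L p.1 < ⊤ → ∀ t : ℝ, 0 ≤ t →
      (∃ q, Ev L ν g t p q) ∧ ∀ q q', Ev L ν g t p q → Ev L ν g t p q' →
        (∀ i, q.1 i =ᵐ[mu] q'.1 i) ∧ q.2 =ᵐ[mu] q'.2 := by
  have abs := t_Abs t_T2
  have uni := t_Uni (t_Inst t_T1 t_T2 t_T3 abs) (t_Der abs) t_Gr
  have ex := t_Ex t_Gal
  have br1 := t_Br1 t_Vel t_Bnd
  have br2 := t_Br2 t_Vel
  exact assemble t_Vel br1 br2 ex uni t_Shf (t_Sub t_Vel br1 br2 ex uni t_Cpt t_Shf t_Om1)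
    (t_Sup t_Vel br1 br2 ex uni t_Cpt t_Shf (t_VB uni ex t_Shf) t_Nrm t_Om2) L ν g hL hν hg

end Pool.Agent.Results.MP_771030_an.PancakeStructure
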